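import Pool.Agent.Y207.SH.StepB

/-!
# Project SH2, one smoothing step
-/

set_option autoImplicit false

open Set Filter Topology Metric Function MeasureTheory
open scoped Manifold ContDiff

noncomputable section

namespace Pool.Agent.Y207.SH

open Pool.Agent.Y522

theorem step (hB : StBlend) (hS : StStraight) : StStep := by
  intro m X _ _ _ _ F₀ A L b hF₀ hN
  obtain ⟨η₀, hη₀, hdir⟩ := direction F₀ A L b hF₀ hN
  set l : ℝ := ‖(L : E (m + 1) →L[ℝ] E (m + 1))‖ with hl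
  have hl0 : 0 ≤ l := norm_nonneg _
  set η₁ : ℝ := min η₀ (1 / 8) with hη₁
  have hη₁pos : 0 < η₁ := lt_min hη₀ (by norm_num)
  have hη₁8 : η₁ ≤ 1 / 8 := min_le_right _ _
  have hη₁0 : η₁ ≤ η₀ := min_le_left _ _
  set η : ℝ := η₁ / (l + 1) with hη
  have hηpos : 0 < η := by positivity
  have hη8 : η ≤ η₁ := by
    rw [hη]
    apply div_le_self hη₁pos.le
    linarith
  have hlη : l * η ≤ η₁ := by
    have h1 : (l + 1) * η = η₁ := by
      rw [hη]
      field_simp
    nlinarith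
  refine ⟨η, hηpos, ?_⟩
  intro F hF hFi hFF hFs hFd N B O hO hBO ε hε
  have hLd : ∀ p, ‖L (F p) - L (F₀ p)‖ ≤ η₁ := by
    intro p
    rw [← map_sub]
    refine ((L : E (m + 1) →L[ℝ] E (m + 1)).le_opNorm _).trans ?_
    exact (mul_le_mul_of_nonneg_left (hFF p) hl0).trans hlη
  set q : E (m + 1) → E m := fun z => tl (L (F (A z))) - b with hq
  have hq1 : ∀ z ∈ box m 1 1, ∀ᶠ y in 𝓝 z, ContDiffAt ℝ ∞ q y := by
    intro z hz
    have h1 := hFs z hz
    have h2 : ∀ᶠ y in 𝓝 z, ContMDiffAt (𝓡 (m + 1)) (𝓡 m) ∞ (fun y => tl (L (F y))) (A y) :=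
      (hN.ld z hz).continuousAt h1
    filter_upwards [h2, (hN.ld z hz).eventually] with y hy hy2
    have h3 : ContDiffAt ℝ ∞ (fun y => tl (L (F (A y)))) y :=
      contMDiffAt_iff_contDiffAt.1 (hy.comp y hy2.contMDiffAt)
    exact h3.sub contDiffAt_const
  have hq2' : ∀ z ∈ box m 1 1, ‖q z - tl z‖ ≤ η₁ := by
    intro z hz
    have h1 := hN.eq z hz
    have h2 : q z - tl z = tl (L (F (A z)) - L (F₀ (A z))) := by
      rw [map_sub, h1]
      change tl (L (F (A z))) - b - tl z = tl (L (F (A z))) - (tl z + b)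
      abel
    rw [h2]
    exact (norm_tl_le _).trans (hLd _)
  have hq2 : ∀ z ∈ box m 1 1, ‖q z - tl z‖ ≤ 1 / 8 := fun z hz => (hq2' z hz).trans hη₁8
  have hq3 : ∀ z ∈ box m 1 1, ‖fderiv ℝ q z - tl‖ ≤ 1 / 8 := by
    intro z hz
    have h1 : fderiv ℝ q z = fderiv ℝ (fun w => tl (L (F (A w)))) z := by
      rw [hq]
      exact fderiv_sub_const b
    rw [h1]
    exact (hFd z hz).trans (hη8.trans hη₁8)
  obtain ⟨Θ, hΘ1, hΘ2, hΘ3⟩ := hS m q hq1 hq2 hq3
  have h781 : box m (7 / 8) (3 / 4) ⊆ box m 1 1 := box_mono (by norm_num) (by norm_num)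
  set AA : E (m + 1) → X := fun w => A (Θ w) with hAA
  have hΘb : ∀ w ∈ box m (3 / 4) (3 / 4), Θ w ∈ box m 1 1 := fun w hw => h781 (hΘ1 w hw).1
  have hAi : InjOn AA (box m (3 / 4) (3 / 4)) := by
    intro w hw w' hw' h1
    exact hΘ2 hw hw' (hN.inj (hΘb w hw) (hΘb w' hw') h1)
  have hAd : ∀ w ∈ box m (3 / 4) (3 / 4), LD (m + 1) AA w := fun w hw =>
    LD.comp_fun (hN.ld _ (hΘb w hw)) (hΘ1 w hw).2.2.2
  have heq : ∀ w ∈ box m (3 / 4) (3 / 4), tl (L (F (AA w))) = tl w + b := by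
    intro w hw
    have h1 := (hΘ1 w hw).2.2.1
    rw [← h1, hq]
    simp [hAA]
  -- monotonicity
  set g : E (m + 1) → ℝ := fun w => (L (F (AA w))) 0 with hg
  have hLF : ∀ w ∈ box m (3 / 4) (3 / 4), L (F (AA w)) = cn (g w) (tl w + b) := by
    intro w hw
    rw [← heq w hw]
    exact (cn_tl _).symm
  have hgc : ContinuousOn g (box m (3 / 4) (3 / 4)) := by
    intro w hw
    have h3 : Continuous (fun p : X => (L (F p)) 0) :=
      continuous_head.comp (L.continuous.comp hF)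
    exact (h3.continuousAt.comp (hAd w hw).continuousAt).continuousWithinAt
  have hmono : ∀ w ∈ box m (3 / 4) (3 / 4), ∀ w' ∈ box m (3 / 4) (3 / 4), tl w = tl w' →
      w 0 < w' 0 → (L (F (AA w))) 0 < (L (F (AA w'))) 0 := by
    intro w hw w' hw' h1 h2
    set x : E m := tl w with hx
    have hxn : ‖x‖ ≤ 3 / 4 := hw.1
    have hmem : ∀ s ∈ Icc (-(3 / 4) : ℝ) (3 / 4), cn s x ∈ box m (3 / 4) (3 / 4) := by
      intro s hs
      refine ⟨by simpa using hxn, ?_⟩
      simpa using abs_le.2 hs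
    have hc1 : ContinuousOn (fun s : ℝ => g (cn s x)) (Icc (-(3 / 4)) (3 / 4)) := by
      refine hgc.comp ?_ hmem
      exact (continuous_cn.comp (by fun_prop : Continuous fun s : ℝ => (s, x))).continuousOn
    have hi1 : InjOn (fun s : ℝ => g (cn s x)) (Icc (-(3 / 4)) (3 / 4)) := by
      intro s hs t ht hst
      have h3 : L (F (AA (cn s x))) = L (F (AA (cn t x))) := by
        rw [hLF _ (hmem s hs), hLF _ (hmem t ht)]
        simp only at hst
        rw [hst, tl_cn, tl_cn]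
      have h4 := hAi (hmem s hs) (hmem t ht) (hFi (L.injective h3))
      have := congrArg (fun z : E (m + 1) => z 0) h4
      simpa using this
    have hclose : ∀ s ∈ Icc (-(3 / 4) : ℝ) (3 / 4), ‖Θ (cn s x) - cn s x‖ ≤ η₀ := by
      intro s hs
      obtain ⟨h3, h4, h5, -⟩ := hΘ1 _ (hmem s hs)
      have h6 : Θ (cn s x) = cn s (tl (Θ (cn s x))) := by
        have h7 := cn_tl (Θ (cn s x))
        rw [h4, cn_zero] at h7
        exact h7.symm
      rw [h6, cn_sub_same]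
      have h8 := hq2' _ (h781 h3)
      rw [h5, tl_cn] at h8
      rw [norm_sub_rev]
      exact h8.trans hη₁0
    have hl1 : (-(3 / 4) : ℝ) ∈ Icc (-(3 / 4) : ℝ) (3 / 4) := by constructor <;> norm_num
    have hr1 : (3 / 4 : ℝ) ∈ Icc (-(3 / 4) : ℝ) (3 / 4) := by constructor <;> norm_num
    have hlt := hdir x hxn (Θ (cn (-(3 / 4)) x)) (hΘb _ (hmem _ hl1)) (Θ (cn (3 / 4) x))
      (hΘb _ (hmem _ hr1)) (hclose _ hl1) (hclose _ hr1)
    have hdiff : ∀ p, |(L (F p)) 0 - (L (F₀ p)) 0| ≤ η₀ := by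
      intro p
      have h3 : (L (F p)) 0 - (L (F₀ p)) 0 = (L (F p) - L (F₀ p)) 0 := by simp
      rw [h3]
      exact (abs_head_le _).trans ((hLd p).trans hη₁0)
    have h5 := abs_le.1 (hdiff (A (Θ (cn (-(3 / 4)) x))))
    have h6 := abs_le.1 (hdiff (A (Θ (cn (3 / 4) x))))
    have hle : g (cn (-(3 / 4)) x) ≤ g (cn (3 / 4) x) := by
      rw [hg]
      simp only [hAA]
      linarith [h5.1, h5.2, h6.1, h6.2]
    have hsm := ContinuousOn.strictMonoOn_of_injOn_Icc (f := fun s : ℝ => g (cn s x))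
      (by norm_num : (-(3 / 4) : ℝ) ≤ 3 / 4) hle hc1 hi1
    have h7 := hsm (abs_le.1 hw.2) (abs_le.1 hw'.2) h2
    simp only at h7
    have h8 : cn (w 0) x = w := cn_tl w
    have h9 : cn (w' 0) x = w' := by
      rw [h1]
      exact cn_tl w'
    rw [h8, h9] at h7
    exact h7
  obtain ⟨F', h1, h2, h3, h4, h5, h6, h7, h8, h9, h10⟩ :=
    core hB F hF hFi L b AA hAi hAd heq hmono N B O hO hBO ε hε
  refine ⟨F', h1, h2, h3, ?_, h5, h6, h7, h8, ?_, h10⟩
  · intro p hp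
    apply h4 p
    rintro ⟨w, hw, rfl⟩
    exact hp ⟨Θ w, hΘb w hw, rfl⟩
  · intro z hz
    have hz1 : z ∈ box m 1 1 := box_mono (by norm_num) (by norm_num) hz
    have hz2 : z ∈ box m (5 / 8) (3 / 4) := box_mono (by norm_num) (by norm_num) hz
    obtain ⟨-, h12⟩ := hΘ3 z hz2
    have h13 : cn (z 0) (q z) ∈ box m (1 / 2) (1 / 2) := by
      refine ⟨?_, ?_⟩
      · rw [tl_cn]
        have h14 := hq2 z hz1
        have h15 : ‖q z‖ ≤ ‖q z - tl z‖ + ‖tl z‖ := by
          have := norm_add_le (q z - tl z) (tl z)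
          simpa using this
        have h16 := hz.1
        linarith
      · rw [cn_zero]
        have h16 := hz.2
        linarith
    have h17 := h9 _ h13
    simp only [hAA, h12] at h17
    exact h17

end Pool.Agent.Y207.SH
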