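import Pool.Agent.Y522.Stm6
import Pool.Agent.Y522.Tools

/-!
# Project SH3, one smoothing step: the mollified map
-/

set_option autoImplicit false

open Set Filter Topology Metric Function MeasureTheory
open scoped Manifold ContDiff

noncomputable section

namespace Pool.Agent.Y207.SH3

open Pool.Agent.Y522

variable {n : ℕ}

theorem kr_zero {s : E n} (hs : 1 ≤ ‖s‖) : kr n s = 0 := by
  unfold kr ContDiffBump.normed
  rw [(bmp n).zero_of_le_dist (by rw [dist_zero_right]; exact hs), zero_div]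

theorem kr_int : ∫ s, kr n s = 1 := by
  unfold kr
  exact (bmp n).integral_normed

theorem kr_nonneg (s : E n) : 0 ≤ kr n s := by
  unfold kr
  exact (bmp n).nonneg_normed s

theorem kr_integrable : Integrable (kr n) := by
  unfold kr
  exact (bmp n).integrable_normed

theorem kr_cont : Continuous (kr n) := (bmp n).continuous_normed

theorem kr_lt {s : E n} (hs : kr n s ≠ 0) : ‖s‖ < 1 := by
  by_contra h
  exact hs (kr_zero (not_lt.1 h))

theorem kr_support : support (kr n) = ball (0 : E n) 1 := by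
  unfold kr
  exact (bmp n).support_normed_eq

/-- the displacement -/
def TT {X : Type} (A : E n → X) (c : E n → ℝ) (s : E n) (x : X) : X :=
  open Classical in
  if h : ∃ z, ‖z‖ ≤ 1 ∧ A z = x then A (h.choose + c h.choose • s) else x

theorem TT_of {X : Type} {A : E n → X} {c : E n → ℝ} (hA : InjOn A (closedBall 0 2)) (s : E n)
    {z : E n} (hz : ‖z‖ ≤ 1) : TT A c s (A z) = A (z + c z • s) := by
  have h : ∃ z', ‖z'‖ ≤ 1 ∧ A z' = A z := ⟨z, hz, rfl⟩
  have h1 : h.choose = z := by
    apply hA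
    · rw [mem_closedBall_zero_iff]
      linarith [h.choose_spec.1]
    · rw [mem_closedBall_zero_iff]
      linarith
    · exact h.choose_spec.2
  unfold TT
  rw [dif_pos h, h1]

theorem TT_off {X : Type} {A : E n → X} {c : E n → ℝ} (s : E n)
    {x : X} (hx : x ∉ A '' closedBall 0 1) : TT A c s x = x := by
  unfold TT
  rw [dif_neg]
  rintro ⟨z, hz, hzx⟩
  exact hx ⟨z, by rwa [mem_closedBall_zero_iff], hzx⟩

/-- the mollified map -/
def MF {X : Type} (A : E n → X) (c : E n → ℝ) (F : X → E n) (x : X) : E n :=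
  ∫ s, kr n s • F (TT A c s x)

theorem MF_off {X : Type} {A : E n → X} {c : E n → ℝ} {F : X → E n} {x : X}
    (hx : x ∉ A '' closedBall 0 1) : MF A c F x = F x := by
  unfold MF
  have h : ∀ s : E n, kr n s • F (TT A c s x) = kr n s • F x := by
    intro s
    rw [TT_off s hx]
  simp only [h]
  rw [integral_smul_const, kr_int, one_smul]

theorem MF_of {X : Type} {A : E n → X} {c : E n → ℝ} {F : X → E n}
    (hA : InjOn A (closedBall 0 2)) (hc : ∀ z, 1 < ‖z‖ → c z = 0) {z : E n} (hz : ‖z‖ ≤ 2) :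
    MF A c F (A z) = Moll n (fun y => F (A y)) c z := by
  unfold MF Moll
  congr 1
  funext s
  rcases le_or_gt ‖z‖ 1 with h | h
  · rw [TT_of hA s h]
  · have h1 : A z ∉ A '' closedBall 0 1 := by
      rintro ⟨y, hy, hyz⟩
      rw [mem_closedBall_zero_iff] at hy
      have h2 : y = z := hA (by rw [mem_closedBall_zero_iff]; linarith)
        (by rw [mem_closedBall_zero_iff]; exact hz) hyz
      rw [h2] at hy
      linarith
    rw [TT_off s h1, hc z h, zero_smul, add_zero]

/-- integrals against the kernel -/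
theorem kr_smul_integrable {V : Type} [NormedAddCommGroup V] [NormedSpace ℝ V] {f : E n → V}
    (hf : ContinuousOn f (closedBall 0 1)) : Integrable (fun s => kr n s • f s) := by
  have h1 : IntegrableOn (fun s => kr n s • f s) (closedBall (0 : E n) 1) :=
    (kr_cont.continuousOn.smul hf).integrableOn_compact (isCompact_closedBall _ _)
  rwa [integrableOn_iff_integrable_of_support_subset] at h1
  intro s hs
  rw [mem_closedBall_zero_iff]
  refine (kr_lt ?_).le
  intro h
  apply hs
  change kr n s • f s = 0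
  rw [h, zero_smul]

/-- the mean of vectors of norm less than one -/
theorem norm_mean_lt {f : E n → E n} (hf : ContinuousOn f (closedBall 0 1))
    (h1 : ∀ s, ‖s‖ ≤ 1 → ‖f s‖ < 1) : ‖∫ s, kr n s • f s‖ < 1 := by
  obtain ⟨s₀, hs₀, hmax⟩ := (isCompact_closedBall (0 : E n) 1).exists_isMaxOn
    ⟨0, mem_closedBall_self (by norm_num)⟩ hf.norm
  have hr : ‖f s₀‖ < 1 := h1 s₀ (by simpa using hs₀)
  have h2 : ‖∫ s, kr n s • f s‖ ≤ ∫ s, kr n s * ‖f s₀‖ := by
    apply norm_integral_le_of_norm_le (kr_integrable.mul_const _)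
    apply Eventually.of_forall
    intro s
    rw [norm_smul, Real.norm_of_nonneg (kr_nonneg s)]
    by_cases hs : kr n s = 0
    · rw [hs]
      simp
    · have h3 : ‖f s‖ ≤ ‖f s₀‖ := hmax (mem_closedBall_zero_iff.2 (kr_lt hs).le)
      exact mul_le_mul_of_nonneg_left h3 (kr_nonneg s)
  rw [integral_mul_const, kr_int, one_mul] at h2
  linarith

/-- strict inequality of means -/
theorem mean_lt {f g : E n → E n} (ℓ : E n →L[ℝ] ℝ) (hf : ContinuousOn f (closedBall 0 1))
    (hg : ContinuousOn g (closedBall 0 1)) (h : ∀ s, ‖s‖ ≤ 1 → ℓ (f s) < ℓ (g s)) :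
    ℓ (∫ s, kr n s • f s) < ℓ (∫ s, kr n s • g s) := by
  have hfi := kr_smul_integrable hf
  have hgi := kr_smul_integrable hg
  rw [← ContinuousLinearMap.integral_comp_comm ℓ hfi, ← ContinuousLinearMap.integral_comp_comm ℓ hgi,
    ← sub_pos, ← integral_sub (ℓ.integrable_comp hgi) (ℓ.integrable_comp hfi)]
  have hnn : ∀ s : E n, 0 ≤ ℓ (kr n s • g s) - ℓ (kr n s • f s) := by
    intro s
    by_cases hs : kr n s = 0
    · rw [hs, zero_smul, zero_smul, sub_self]
    · rw [map_smul, map_smul, smul_eq_mul, smul_eq_mul, ← mul_sub]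
      exact mul_nonneg (kr_nonneg s) (sub_nonneg.2 (h s (kr_lt hs).le).le)
  rw [integral_pos_iff_support_of_nonneg hnn
    ((ℓ.integrable_comp hgi).sub (ℓ.integrable_comp hfi))]
  have hsub : ball (0 : E n) 1 ⊆ support fun s => ℓ (kr n s • g s) - ℓ (kr n s • f s) := by
    intro s hs
    have h1 : kr n s ≠ 0 := by
      rw [← kr_support] at hs
      exact hs
    change ℓ (kr n s • g s) - ℓ (kr n s • f s) ≠ 0
    rw [map_smul, map_smul, smul_eq_mul, smul_eq_mul, ← mul_sub]
    exact mul_ne_zero h1 (sub_pos.2 (h s (kr_lt h1).le)).ne'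
  exact (measure_ball_pos volume (0 : E n) one_pos).trans_le (measure_mono hsub)

/-- invertible derivative -/
theorem LD_of_pos {f : E n → E n} {z : E n} (hf : ∀ᶠ y in 𝓝 z, ContDiffAt ℝ ∞ f y)
    (h : ∀ u : E n, ‖u‖ = 1 → fderiv ℝ f z u ≠ 0) : LD n f z := by
  have hinj : Injective (fderiv ℝ f z) := by
    rw [injective_iff_map_eq_zero]
    intro v hv
    by_contra hv0
    have hn : ‖v‖ ≠ 0 := norm_ne_zero_iff.2 hv0
    apply h (‖v‖⁻¹ • v)
    · rw [norm_smul, norm_inv, norm_norm, inv_mul_cancel₀ hn]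
    · rw [map_smul, hv, smul_zero]
  let e : E n ≃L[ℝ] E n :=
    (LinearEquiv.ofInjectiveEndo (fderiv ℝ f z : E n →ₗ[ℝ] E n) hinj).toContinuousLinearEquiv
  have he : (e : E n →L[ℝ] E n) = fderiv ℝ f z := by
    ext v
    rfl
  refine LD_of_contDiffAt hf e ?_
  rw [he]
  exact (hf.self_of_nhds.differentiableAt (by simp)).hasFDerivAt

end Pool.Agent.Y207.SH3
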