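import Pool.Agent.Y522.Stm5
import Pool.Agent.Y522.Tools

/-!
# Project SH2, tools for one smoothing step
-/

set_option autoImplicit false

open Set Filter Topology Metric Function MeasureTheory
open scoped Manifold ContDiff

noncomputable section

namespace Pool.Agent.Y207.SH

open Pool.Agent.Y522

variable {m : ℕ}

theorem e0_head : (e0 : E (m + 1)) 0 = 1 := rfl

theorem tl_e0 : tl (e0 : E (m + 1)) = 0 := by simp [e0]

theorem e0_ne : (e0 : E (m + 1)) ≠ 0 := by
  intro h
  have h1 := e0_head (m := m)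
  rw [h] at h1
  simp at h1

theorem norm_e0 : ‖(e0 : E (m + 1))‖ = 1 := by
  have h := norm_cn_sq (m := m) 1 0
  simp only [norm_zero] at h
  have h2 : ‖(e0 : E (m + 1))‖ ^ 2 = 1 := by
    unfold e0
    rw [h]
    norm_num
  nlinarith [norm_nonneg (e0 : E (m + 1))]

theorem cn_eq' (t : ℝ) (x : E m) : cn t x = t • e0 + inc x := by
  rw [inc_apply]
  exact cn_eq t x

theorem cn_smul_e0 (t : ℝ) : cn t (0 : E m) = t • e0 := by
  rw [cn_eq', map_zero, add_zero]

theorem ext_head_tl {z z' : E (m + 1)} (h0 : z 0 = z' 0) (h1 : tl z = tl z') : z = z' := by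
  rw [← cn_tl z, ← cn_tl z', h0, h1]

theorem cn_head_add (t s : ℝ) (x : E m) : cn (t + s) x = cn t x + s • e0 := by
  rw [cn_eq', cn_eq', add_smul]
  abel

theorem cn_sub_same (t : ℝ) (x y : E m) : ‖cn t x - cn t y‖ = ‖x - y‖ := by
  have h : cn t x - cn t y = cn 0 (x - y) := by
    rw [cn_eq', cn_eq', cn_eq', map_sub]
    simp
  rw [h]
  have h2 := norm_cn_sq (m := m) 0 (x - y)
  have h3 : ‖cn 0 (x - y)‖ ^ 2 = ‖x - y‖ ^ 2 := by
    rw [h2]
    ring
  nlinarith [norm_nonneg (cn 0 (x - y)), norm_nonneg (x - y), sq_nonneg (‖cn 0 (x - y)‖ - ‖x - y‖)]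

/-- the images of the segments of a line -/
theorem line_image {g g' : E (m + 1) → ℝ} {R T R' T' : ℝ} (hT : T' < T) (hT0 : 0 < T)
    (hg : ContinuousOn g (box m R T))
    (hm : ∀ z ∈ box m R T, ∀ z' ∈ box m R T, tl z = tl z' → z 0 < z' 0 → g' z < g' z')
    (h : ∀ z, z ∉ box m R' T' → g' z = g z) {w : E (m + 1)} (hw : w ∈ box m R T) :
    ∃ w' ∈ box m R T, tl w' = tl w ∧ g w' = g' w := by
  have hmem : ∀ s ∈ Icc (-T) T, cn s (tl w) ∈ box m R T := by
    intro s hs
    refine ⟨by simpa using hw.1, ?_⟩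
    simpa using abs_le.2 hs
  have hcont : ContinuousOn (fun s : ℝ => g (cn s (tl w))) (Icc (-T) T) := by
    refine hg.comp ?_ hmem
    exact (continuous_cn.comp (by fun_prop : Continuous fun s : ℝ => (s, tl w))).continuousOn
  have hle : ∀ z ∈ box m R T, ∀ z' ∈ box m R T, tl z = tl z' → z 0 ≤ z' 0 → g' z ≤ g' z' := by
    intro z hz z' hz' h1 h2
    rcases h2.lt_or_eq with h3 | h3
    · exact (hm z hz z' hz' h1 h3).le
    · rw [ext_head_tl h3 h1]
  have hw0 := abs_le.1 hw.2
  have hA : g (cn (-T) (tl w)) ≤ g' w := by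
    rw [← h (cn (-T) (tl w))]
    · exact hle _ (hmem _ ⟨le_refl _, by linarith⟩) _ hw (by simp) (by simpa using hw0.1)
    · intro hc
      have h2 := hc.2
      simp only [cn_zero, abs_neg, abs_of_pos hT0] at h2
      linarith
  have hB : g' w ≤ g (cn T (tl w)) := by
    rw [← h (cn T (tl w))]
    · exact hle _ hw _ (hmem _ ⟨by linarith, le_refl _⟩) (by simp) (by simpa using hw0.2)
    · intro hc
      have h2 := hc.2
      simp only [cn_zero, abs_of_pos hT0] at h2
      linarith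
  obtain ⟨s, hs, hs2⟩ := intermediate_value_Icc (by linarith : -T ≤ T) hcont ⟨hA, hB⟩
  exact ⟨cn s (tl w), hmem s hs, by simp, hs2⟩

/-- nonnegative derivative of monotone functions -/
theorem fderiv_e0_nonneg {g : E (m + 1) → ℝ} {R T : ℝ}
    (hm : ∀ z ∈ box m R T, ∀ z' ∈ box m R T, tl z = tl z' → z 0 < z' 0 → g z < g z')
    {w : E (m + 1)} (h1 : ‖tl w‖ ≤ R) (h2 : |w 0| < T) (hd : DifferentiableAt ℝ g w) :
    0 ≤ fderiv ℝ g w e0 := by
  have hline : HasDerivAt (fun s : ℝ => g (w + s • e0)) (fderiv ℝ g w e0) 0 := by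
    have h3 : HasFDerivAt g (fderiv ℝ g w) (w + (0 : ℝ) • e0) := by
      rw [zero_smul, add_zero]
      exact hd.hasFDerivAt
    have h4 : HasDerivAt (fun s : ℝ => w + s • (e0 : E (m + 1))) ((1 : ℝ) • e0) 0 :=
      ((hasDerivAt_id (0 : ℝ)).smul_const e0).const_add w
    have h5 := h3.comp_hasDerivAt (0 : ℝ) h4
    rw [one_smul] at h5
    exact h5
  set a : ℝ := T - |w 0| with ha
  have hapos : 0 < a := by
    rw [ha]
    linarith
  have hmono : MonotoneOn (fun s : ℝ => g (w + s • e0)) (Icc (-a) a) := by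
    intro s hs t ht hst
    rcases hst.lt_or_eq with h3 | h3
    · refine (hm _ ?_ _ ?_ ?_ ?_).le
      · refine ⟨by simpa [tl_e0] using h1, ?_⟩
        have h6 : (w + s • (e0 : E (m + 1))) 0 = w 0 + s := by simp [e0_head]
        rw [h6]
        have h7 : |s| ≤ a := abs_le.2 hs
        have h8 := abs_add_le (w 0) s
        linarith
      · refine ⟨by simpa [tl_e0] using h1, ?_⟩
        have h6 : (w + t • (e0 : E (m + 1))) 0 = w 0 + t := by simp [e0_head]
        rw [h6]
        have h7 : |t| ≤ a := abs_le.2 ht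
        have h8 := abs_add_le (w 0) t
        linarith
      · simp [tl_e0]
      · simpa [e0_head] using h3
    · rw [h3]
  have h6 := hmono.derivWithin_nonneg (x := 0)
  rw [derivWithin_of_mem_nhds (Icc_mem_nhds (by linarith) hapos), hline.deriv] at h6
  exact h6

/-- the map in normal form is a local diffeomorphism -/
theorem LD_normal {g : E (m + 1) → ℝ} (b : E m) {w : E (m + 1)}
    (hg : ∀ᶠ y in 𝓝 w, ContDiffAt ℝ ∞ g y) (h0 : fderiv ℝ g w e0 ≠ 0) :
    LD (m + 1) (fun y => cn (g y) (tl y + b)) w := by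
  have hfun : (fun y : E (m + 1) => cn (g y) (tl y + b)) =
      fun y => g y • (e0 : E (m + 1)) + inc (tl y + b) := by
    funext y
    rw [cn_eq']
  rw [hfun]
  set D : E (m + 1) →L[ℝ] E (m + 1) :=
    (fderiv ℝ g w).smulRight e0 + (inc : E m →L[ℝ] E (m + 1)).comp tl with hD
  have hDv : ∀ v, D v = cn (fderiv ℝ g w v) (tl v) := by
    intro v
    rw [cn_eq']
    rfl
  have hinj : Injective D := by
    rw [injective_iff_map_eq_zero]
    intro v hv
    rw [hDv] at hv
    have h1 : tl v = 0 := by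
      have := congrArg tl hv
      simpa using this
    have h2 : fderiv ℝ g w v = 0 := by
      have := congrArg (fun z : E (m + 1) => z 0) hv
      simpa using this
    have h3 : v = (v 0) • e0 := by
      rw [← cn_smul_e0]
      exact ext_head_tl (by simp) (by simp [h1])
    rw [h3, map_smul, smul_eq_mul] at h2
    rcases mul_eq_zero.1 h2 with h4 | h4
    · rw [h3, h4, zero_smul]
    · exact absurd h4 h0
  have hd : HasFDerivAt (fun y => g y • (e0 : E (m + 1)) + inc (tl y + b)) D w := by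
    have h1 : HasFDerivAt g (fderiv ℝ g w) w :=
      (hg.self_of_nhds.differentiableAt (by simp)).hasFDerivAt
    have h2 : HasFDerivAt (fun y => g y • (e0 : E (m + 1))) ((fderiv ℝ g w).smulRight e0) w :=
      h1.smul_const e0
    have h3 : HasFDerivAt (fun y : E (m + 1) => (inc : E m →L[ℝ] E (m + 1)) (tl y + b))
        ((inc : E m →L[ℝ] E (m + 1)).comp tl) w := by
      have h4 : HasFDerivAt (fun y : E (m + 1) => tl y + b) tl w :=
        tl.hasFDerivAt.add_const b
      exact (inc : E m →L[ℝ] E (m + 1)).hasFDerivAt.comp w h4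
    exact h2.add h3
  let e : E (m + 1) ≃L[ℝ] E (m + 1) :=
    (LinearEquiv.ofInjectiveEndo (D : E (m + 1) →ₗ[ℝ] E (m + 1)) hinj).toContinuousLinearEquiv
  have he : (e : E (m + 1) →L[ℝ] E (m + 1)) = D := by
    ext v
    rfl
  refine LD_of_contDiffAt ?_ e (by rw [he]; exact hd)
  filter_upwards [hg] with y hy
  have h5 : ContDiffAt ℝ ∞ (fun y : E (m + 1) => (inc : E m →L[ℝ] E (m + 1)) (tl y + b)) y := by
    have : ContDiff ℝ ∞ (fun y : E (m + 1) => (inc : E m →L[ℝ] E (m + 1)) (tl y + b)) :=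
      (inc : E m →L[ℝ] E (m + 1)).contDiff.comp (tl.contDiff.add contDiff_const)
    exact this.contDiffAt
  exact (hy.smul contDiffAt_const).add h5

/-- conversely -/
theorem fderiv_ne_of_LD {g : E (m + 1) → ℝ} (b : E m) {w : E (m + 1)}
    (h : LD (m + 1) (fun y => cn (g y) (tl y + b)) w) : fderiv ℝ g w e0 ≠ 0 := by
  obtain ⟨A, hA⟩ := h.exists_equiv
  intro h0
  have hhead : HasFDerivAt g ((EuclideanSpace.proj (0 : Fin (m + 1)) :
      E (m + 1) →L[ℝ] ℝ).comp (A : E (m + 1) →L[ℝ] E (m + 1))) w :=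
    (EuclideanSpace.proj (0 : Fin (m + 1)) : E (m + 1) →L[ℝ] ℝ).hasFDerivAt.comp w hA
  have htl : HasFDerivAt (fun y : E (m + 1) => tl y + b)
      ((tl : E (m + 1) →L[ℝ] E m).comp (A : E (m + 1) →L[ℝ] E (m + 1))) w := by
    have h1 := (tl : E (m + 1) →L[ℝ] E m).hasFDerivAt.comp w hA
    refine h1.congr_of_eventuallyEq (Eventually.of_forall fun y => ?_)
    simp
  have htl2 : HasFDerivAt (fun y : E (m + 1) => tl y + b) tl w := tl.hasFDerivAt.add_const b
  have h2 := htl.unique htl2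
  have h3 : tl (A e0) = 0 := by
    have := congrArg (fun B : E (m + 1) →L[ℝ] E m => B e0) h2
    simpa [tl_e0] using this
  have h4 : (A e0) 0 = 0 := by
    rw [hhead.fderiv] at h0
    exact h0
  have h5 : A e0 = 0 := ext_head_tl (by simpa using h4) (by simpa using h3)
  exact e0_ne ((map_eq_zero_iff A A.injective).1 h5)

/-- the direction of monotonicity is stable -/
theorem direction {X : Type} [TopologicalSpace X] [ChartedSpace (E (m + 1)) X]
    (F₀ : X → E (m + 1)) (A : E (m + 1) → X)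
    (L : E (m + 1) ≃L[ℝ] E (m + 1)) (b : E m) (hF₀ : Continuous F₀) (hN : NBox m F₀ A L b) :
    ∃ η : ℝ, 0 < η ∧ ∀ x : E m, ‖x‖ ≤ 3 / 4 → ∀ u ∈ box m 1 1, ∀ v ∈ box m 1 1,
      ‖u - cn (-(3 / 4)) x‖ ≤ η → ‖v - cn (3 / 4) x‖ ≤ η →
      (L (F₀ (A u))) 0 + η < (L (F₀ (A v))) 0 - η := by
  set g : E (m + 1) → ℝ := fun z => (L (F₀ (A z))) 0 with hg
  have hgc : ContinuousOn g (box m 1 1) := by
    intro z hz
    have h1 : ContinuousAt A z := (hN.ld z hz).continuousAt
    have h2 : ContinuousAt g z := by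
      have h3 : Continuous (fun p : X => (L (F₀ p)) 0) :=
        continuous_head.comp (L.continuous.comp hF₀)
      exact h3.continuousAt.comp h1
    exact h2.continuousWithinAt
  have hK : IsCompact (closedBall (0 : E m) (3 / 4)) := isCompact_closedBall _ _
  have hmem : ∀ x ∈ closedBall (0 : E m) (3 / 4), ∀ t : ℝ, |t| ≤ 3 / 4 → cn t x ∈ box m 1 1 := by
    intro x hx t ht
    have h1 : ‖x‖ ≤ 3 / 4 := by simpa using hx
    refine ⟨?_, ?_⟩
    · simp only [tl_cn]
      linarith
    · simp only [cn_zero]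
      linarith
  have hl : |(-(3 / 4) : ℝ)| ≤ 3 / 4 := by
    rw [abs_le]
    constructor <;> norm_num
  have hr : |(3 / 4 : ℝ)| ≤ 3 / 4 := by
    rw [abs_le]
    constructor <;> norm_num
  have hfc : ContinuousOn (fun x : E m => g (cn (3 / 4) x) - g (cn (-(3 / 4)) x))
      (closedBall (0 : E m) (3 / 4)) := by
    have h1 : ∀ t : ℝ, Continuous (fun x : E m => cn t x) := fun t =>
      continuous_cn.comp (by fun_prop : Continuous fun x : E m => (t, x))
    refine ContinuousOn.sub ?_ ?_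
    · exact hgc.comp (h1 _).continuousOn fun x hx => hmem x hx _ hr
    · exact hgc.comp (h1 _).continuousOn fun x hx => hmem x hx _ hl
  obtain ⟨x₀, hx₀, hmin⟩ := hK.exists_isMinOn ⟨0, mem_closedBall_self (by norm_num)⟩ hfc
  set c : ℝ := g (cn (3 / 4) x₀) - g (cn (-(3 / 4)) x₀) with hc
  have hcpos : 0 < c := by
    have h1 := hN.mono (cn (-(3 / 4)) x₀) (hmem x₀ hx₀ _ hl) (cn (3 / 4) x₀) (hmem x₀ hx₀ _ hr)
      (by simp) (by simp only [cn_zero]; norm_num)
    rw [hc]
    exact sub_pos.2 h1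
  have huc := (isCompact_box (m := m) 1 1).uniformContinuousOn_of_continuous hgc
  rw [Metric.uniformContinuousOn_iff] at huc
  obtain ⟨δ, hδ, huc⟩ := huc (c / 8) (by linarith)
  refine ⟨min (δ / 2) (c / 8), lt_min (by linarith) (by linarith), ?_⟩
  intro x hx u hu v hv huv hvv
  have hxm : x ∈ closedBall (0 : E m) (3 / 4) := by simpa using hx
  have h1 : c ≤ g (cn (3 / 4) x) - g (cn (-(3 / 4)) x) := hmin hxm
  have h2 : dist (g u) (g (cn (-(3 / 4)) x)) < c / 8 := by
    apply huc u hu _ (hmem x hxm _ hl)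
    rw [dist_eq_norm]
    calc _ ≤ _ := huv
      _ ≤ δ / 2 := min_le_left _ _
      _ < δ := by linarith
  have h3 : dist (g v) (g (cn (3 / 4) x)) < c / 8 := by
    apply huc v hv _ (hmem x hxm _ hr)
    rw [dist_eq_norm]
    calc _ ≤ _ := hvv
      _ ≤ δ / 2 := min_le_left _ _
      _ < δ := by linarith
  rw [Real.dist_eq, abs_lt] at h2 h3
  have h4 : min (δ / 2) (c / 8) ≤ c / 8 := min_le_right _ _
  change g u + min (δ / 2) (c / 8) < g v - min (δ / 2) (c / 8)
  linarith [h2.1, h2.2, h3.1, h3.2]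

end Pool.Agent.Y207.SH
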